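import Pool.Agent.helper4.NF.SpecB

set_option autoImplicit false

open Complex MeasureTheory

namespace Pool.Agent.NF

open Pool.Agent.helper84.DM Pool.Agent.helper78.ED Pool.Agent.DH Pool.Agent.ZD

theorem GLS_int (T : ℝ) (hT : 0 < T) (u : ℝ → ℝ) (hu : Continuous u) (B : ℝ)
    (hB : ∀ x, ‖u x‖ ≤ B) : Integrable (fun x => u x * Real.exp (-(x / T) ^ 2)) := by
  have h1 : Integrable (fun x : ℝ => Real.exp (-(x / T) ^ 2)) := by
    have h2 := integrable_exp_neg_mul_sq (b := 1 / T ^ 2) (by positivity)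
    refine h2.congr ?_
    filter_upwards with x
    congr 1
    field_simp
  have h3 : Integrable (fun x : ℝ => Real.exp (-(x / T) ^ 2) * u x) :=
    h1.mul_bdd (c := B) hu.aestronglyMeasurable (by filter_upwards with x using hB x)
  refine h3.congr ?_
  filter_upwards with x
  exact mul_comm _ _

theorem GLS_ex (c x : ℝ) : HasDerivAt (fun τ : ℝ => ex (-(τ * c))) (-(I * (c : ℂ) * ex (-(x * c)))) x := by
  unfold ex
  have h1 : HasDerivAt (fun τ : ℝ => ((-(τ * c) : ℝ) : ℂ) * I) (-(c : ℂ) * I) x := by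
    have h2 : HasDerivAt (fun τ : ℝ => (-(τ * c) : ℝ)) (-c) x := by
      have := ((hasDerivAt_id x).mul_const c).fun_neg
      simpa using this
    have h3 := h2.ofReal_comp.mul_const I
    simpa using h3
  have h4 := h1.cexp
  refine h4.congr_deriv ?_
  ring

theorem GLS_exc : Continuous ex := by
  unfold ex
  fun_prop

theorem GLS (hGAL : GAL_stmt) (hDRV : DRV_stmt) (hEXA : EXA_stmt) (hEXB : EXB_stmt)
    (hPHS : PHS_stmt) : GLS_stmt := by
  intro T W f X M X₀ N b hT hW hN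
  obtain ⟨hnorm, hadd, -, -, -, hDG, -, -, -⟩ := hEXA
  obtain ⟨hSR, hSRL, -, -, -, -⟩ := hEXB
  obtain ⟨hBW, hBWd⟩ := hDRV
  obtain ⟨-, -, hPhi, -, -, -⟩ := hPHS
  have hT0 : 0 < T := by linarith
  have hA0 : 0 ∉ Finset.Ioc N (4 * N) := by
    intro h
    have := (Finset.mem_Ioc.1 h).1
    omega
  set A : Finset ℕ := Finset.Ioc N (4 * N) with hA
  set b₁ : ℕ → ℂ := fun n => b n * ((Real.log n - Real.log N : ℝ) : ℂ) with hb₁
  -- the function ex (τ log N) Q τ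
  set E : ℝ → ℂ := fun τ => ∑ n ∈ A, b n * ex (-(τ * (Real.log n - Real.log N))) with hE
  set E₁ : ℝ → ℂ := fun τ => ∑ n ∈ A, b₁ n * ex (-(τ * (Real.log n - Real.log N))) with hE₁
  have hEQ : ∀ (c : ℕ → ℂ) (τ : ℝ), ∑ n ∈ A, c n * ex (-(τ * (Real.log n - Real.log N))) =
      ex (τ * Real.log N) * DG A c τ := by
    intro c τ
    rw [hDG A c τ hA0, Finset.mul_sum]
    refine Finset.sum_congr rfl fun n _ => ?_
    have h1 : -(τ * (Real.log n - Real.log N)) = τ * Real.log N + -(τ * Real.log n) := by ring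
    rw [h1, hadd]
    ring
  have hEn : ∀ (c : ℕ → ℂ) (τ : ℝ),
      ‖∑ n ∈ A, c n * ex (-(τ * (Real.log n - Real.log N)))‖ = ‖DG A c τ‖ := by
    intro c τ
    rw [hEQ, norm_mul, hnorm, one_mul]
  have hEd : ∀ x, HasDerivAt E (-(I * E₁ x)) x := by
    intro x
    have h1 : HasDerivAt E (∑ n ∈ A, b n * (-(I * ((Real.log n - Real.log N : ℝ) : ℂ) *
        ex (-(x * (Real.log n - Real.log N)))))) x := by
      rw [hE]
      apply HasDerivAt.fun_sum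
      intro n _
      exact (GLS_ex (Real.log n - Real.log N) x).const_mul (b n)
    refine h1.congr_deriv ?_
    rw [hE₁, Finset.mul_sum, ← Finset.sum_neg_distrib]
    refine Finset.sum_congr rfl fun n _ => ?_
    rw [hb₁]
    ring
  have hEc : ∀ c : ℕ → ℂ, Continuous (fun τ : ℝ =>
      ∑ n ∈ A, c n * ex (-(τ * (Real.log n - Real.log N)))) := by
    intro c
    refine continuous_finsetSum _ fun n _ => continuous_const.mul ?_
    exact GLS_exc.comp (by fun_prop)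
  have hEb : ∀ (c : ℕ → ℂ) (τ : ℝ),
      ‖∑ n ∈ A, c n * ex (-(τ * (Real.log n - Real.log N)))‖ ≤ ∑ n ∈ A, ‖c n‖ := by
    intro c τ
    refine (norm_sum_le _ _).trans (Finset.sum_le_sum fun n _ => ?_)
    rw [norm_mul, hnorm, mul_one]
  -- the inequality for one k
  have key : ∀ k : ℕ, ∑ τ ∈ W, ‖PP N b τ‖ ^ 2 * ‖FG Phi W f X M τ k‖ ^ 2 ≤
      10 ^ 5 * ((∫ τ : ℝ, ‖DG A b τ‖ ^ 2 * ‖FG Phi W f X M τ k‖ ^ 2 * Real.exp (-(τ / T) ^ 2)) +
        (∫ τ : ℝ, ‖DG A b₁ τ‖ ^ 2 * ‖FG Phi W f X M τ k‖ ^ 2 * Real.exp (-(τ / T) ^ 2)) +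
        (∫ τ : ℝ, ‖DG A b τ‖ ^ 2 * ‖FG PhL W f X M τ k‖ ^ 2 * Real.exp (-(τ / T) ^ 2))) := by
    intro k
    have hFc : ∀ g : ℝ → ℝ, SR g → Continuous (fun τ => FG g W f X M τ k) := by
      intro g hg
      unfold FG
      refine continuous_finsetSum _ fun t _ => continuous_const.mul ?_
      exact (hBW g hg X M).1.comp (by fun_prop)
    have hFb : ∀ g : ℝ → ℝ, SR g → ∃ B : ℝ, ∀ τ, ‖FG g W f X M τ k‖ ≤ B := by
      intro g hg
      obtain ⟨B, hB⟩ := (hBW g hg X M).2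
      refine ⟨∑ t ∈ W, ‖f t‖ * B, fun τ => ?_⟩
      unfold FG
      refine (norm_sum_le _ _).trans (Finset.sum_le_sum fun t _ => ?_)
      rw [norm_mul, norm_mul, hnorm, mul_one]
      exact mul_le_mul_of_nonneg_left (hB _) (norm_nonneg _)
    set F : ℝ → ℂ := fun τ => FG Phi W f X M τ k with hF
    set F₁ : ℝ → ℂ := fun τ => FG PhL W f X M τ k with hF₁
    have hFd : ∀ x, HasDerivAt F (-(I * F₁ x)) x := by
      intro x
      have h1 : HasDerivAt F (∑ t ∈ W, f t * ex (-(t * Real.log k)) *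
          (-(I * BW PhL X M (x - t)))) x := by
        rw [hF]
        unfold FG
        apply HasDerivAt.fun_sum
        intro t _
        have h2 : HasDerivAt (fun τ : ℝ => BW Phi X M (τ - t)) (-(I * BW PhL X M (x - t))) x := by
          have h3 := HasDerivAt.comp_sub_const x t (hBWd X M (x - t))
          exact h3
        exact h2.const_mul _
      refine h1.congr_deriv ?_
      rw [hF₁]
      unfold FG
      rw [Finset.mul_sum, ← Finset.sum_neg_distrib]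
      refine Finset.sum_congr rfl fun t _ => ?_
      ring
    obtain ⟨B, hB⟩ := hFb Phi hSR
    obtain ⟨B₁, hB₁⟩ := hFb PhL hSRL
    have hFcont : Continuous F := hFc Phi hSR
    have hF₁cont : Continuous F₁ := hFc PhL hSRL
    have hEcont : Continuous E := hEc b
    have hE₁cont : Continuous E₁ := hEc b₁
    set H : ℝ → ℂ := fun τ => E τ * F τ with hH
    set H' : ℝ → ℂ := fun τ => -(I * E₁ τ) * F τ + E τ * (-(I * F₁ τ)) with hH'
    have hHd : ∀ x, HasDerivAt H (H' x) x := fun x => (hEd x).mul (hFd x)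
    have hH'c : Continuous H' := by
      rw [hH']
      exact ((continuous_const.mul hE₁cont).neg.mul hFcont).add
        (hEcont.mul (continuous_const.mul hF₁cont).neg)
    have hHc : Continuous H := hEcont.mul hFcont
    set SE : ℝ := ∑ n ∈ A, ‖b n‖ with hSE
    set SE₁ : ℝ := ∑ n ∈ A, ‖b₁ n‖ with hSE₁
    have hEle : ∀ x, ‖E x‖ ≤ SE := hEb b
    have hE₁le : ∀ x, ‖E₁ x‖ ≤ SE₁ := hEb b₁
    have hSE0 : 0 ≤ SE := Finset.sum_nonneg fun _ _ => norm_nonneg _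
    have hSE₁0 : 0 ≤ SE₁ := Finset.sum_nonneg fun _ _ => norm_nonneg _
    -- integrability of a product
    have hint : ∀ (u v : ℝ → ℂ) (a c : ℝ), Continuous u → Continuous v → (∀ x, ‖u x‖ ≤ a) →
        (∀ x, ‖v x‖ ≤ c) → Integrable (fun x : ℝ => ‖u x‖ ^ 2 * ‖v x‖ ^ 2 * Real.exp (-(x / T) ^ 2)) := by
      intro u v a c hu hv ha hc
      refine GLS_int T hT0 (fun x => ‖u x‖ ^ 2 * ‖v x‖ ^ 2) (by fun_prop) (a ^ 2 * c ^ 2) ?_
      intro x
      rw [Real.norm_eq_abs, abs_of_nonneg (by positivity)]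
      exact mul_le_mul (pow_le_pow_left₀ (norm_nonneg _) (ha x) 2)
        (pow_le_pow_left₀ (norm_nonneg _) (hc x) 2) (by positivity) (by positivity)
    have hi1 := hint E F SE B hEcont hFcont hEle hB
    have hi2 := hint E₁ F SE₁ B hE₁cont hFcont hE₁le hB
    have hi3 := hint E F₁ SE B₁ hEcont hF₁cont hEle hB₁
    have hHsq : ∀ x, ‖H x‖ ^ 2 = ‖E x‖ ^ 2 * ‖F x‖ ^ 2 := by
      intro x
      rw [hH]
      show ‖E x * F x‖ ^ 2 = _
      rw [norm_mul, mul_pow]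
    have hH'sq : ∀ x, ‖H' x‖ ^ 2 ≤ 2 * (‖E₁ x‖ ^ 2 * ‖F x‖ ^ 2) + 2 * (‖E x‖ ^ 2 * ‖F₁ x‖ ^ 2) := by
      intro x
      have h1 : ‖H' x‖ ≤ ‖E₁ x‖ * ‖F x‖ + ‖E x‖ * ‖F₁ x‖ := by
        rw [hH']
        refine (norm_add_le _ _).trans (le_of_eq ?_)
        rw [norm_mul, norm_mul, norm_neg, norm_neg, norm_mul, norm_mul, Complex.norm_I, one_mul,
          one_mul]
      have h2 : ‖H' x‖ ^ 2 ≤ (‖E₁ x‖ * ‖F x‖ + ‖E x‖ * ‖F₁ x‖) ^ 2 :=
        pow_le_pow_left₀ (norm_nonneg _) h1 2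
      nlinarith [sq_nonneg (‖E₁ x‖ * ‖F x‖ - ‖E x‖ * ‖F₁ x‖)]
    have hIH : Integrable (fun x : ℝ => ‖H x‖ ^ 2 * Real.exp (-(x / T) ^ 2)) := by
      refine hi1.congr ?_
      filter_upwards with x
      rw [hHsq]
    have hIH' : Integrable (fun x : ℝ => ‖H' x‖ ^ 2 * Real.exp (-(x / T) ^ 2)) := by
      refine Integrable.mono' ((hi2.const_mul 2).add (hi3.const_mul 2)) ?_ ?_
      · exact (Continuous.mul (hH'c.norm.pow 2) (by fun_prop)).aestronglyMeasurable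
      · filter_upwards with x
        rw [Real.norm_eq_abs, abs_of_nonneg (by positivity)]
        have h1 := mul_le_mul_of_nonneg_right (hH'sq x) (Real.exp_pos (-(x / T) ^ 2)).le
        refine h1.trans (le_of_eq ?_)
        simp only [Pi.add_apply]
        ring
    have hSep0 : Sep 0 T W := hW
    have hg := hGAL T W H H' hT hSep0 hHd hH'c hIH hIH'
    have hlhs : ∑ τ ∈ W, ‖PP N b τ‖ ^ 2 * ‖FG Phi W f X M τ k‖ ^ 2 = ∑ t ∈ W, ‖H t‖ ^ 2 := by
      refine Finset.sum_congr rfl fun t _ => ?_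
      rw [hHsq]
      have h1 : ‖E t‖ = ‖PP N b t‖ := hEn b t
      rw [h1]
    rw [hlhs]
    refine hg.trans ?_
    have hI1 : (∫ τ : ℝ, ‖DG A b τ‖ ^ 2 * ‖FG Phi W f X M τ k‖ ^ 2 * Real.exp (-(τ / T) ^ 2)) =
        ∫ x : ℝ, ‖E x‖ ^ 2 * ‖F x‖ ^ 2 * Real.exp (-(x / T) ^ 2) := by
      congr 1
      funext x
      have h1 : ‖E x‖ = ‖DG A b x‖ := hEn b x
      rw [h1]
    have hI2 : (∫ τ : ℝ, ‖DG A b₁ τ‖ ^ 2 * ‖FG Phi W f X M τ k‖ ^ 2 * Real.exp (-(τ / T) ^ 2)) =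
        ∫ x : ℝ, ‖E₁ x‖ ^ 2 * ‖F x‖ ^ 2 * Real.exp (-(x / T) ^ 2) := by
      congr 1
      funext x
      have h1 : ‖E₁ x‖ = ‖DG A b₁ x‖ := hEn b₁ x
      rw [h1]
    have hI3 : (∫ τ : ℝ, ‖DG A b τ‖ ^ 2 * ‖FG PhL W f X M τ k‖ ^ 2 * Real.exp (-(τ / T) ^ 2)) =
        ∫ x : ℝ, ‖E x‖ ^ 2 * ‖F₁ x‖ ^ 2 * Real.exp (-(x / T) ^ 2) := by
      congr 1
      funext x
      have h1 : ‖E x‖ = ‖DG A b x‖ := hEn b x
      rw [h1]
    rw [hI1, hI2, hI3]
    have hmono : ∫ x : ℝ, (2 * ‖H x‖ ^ 2 + ‖H' x‖ ^ 2) * Real.exp (-(x / T) ^ 2) ≤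
        ∫ x : ℝ, (2 * (‖E x‖ ^ 2 * ‖F x‖ ^ 2 * Real.exp (-(x / T) ^ 2)) +
          2 * (‖E₁ x‖ ^ 2 * ‖F x‖ ^ 2 * Real.exp (-(x / T) ^ 2))) +
          2 * (‖E x‖ ^ 2 * ‖F₁ x‖ ^ 2 * Real.exp (-(x / T) ^ 2)) := by
      apply integral_mono
      · have h1 := (hIH.const_mul 2).add hIH'
        refine h1.congr ?_
        filter_upwards with x
        simp only [Pi.add_apply]
        ring
      · exact ((hi1.const_mul 2).add (hi2.const_mul 2)).add (hi3.const_mul 2)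
      · intro x
        show (2 * ‖H x‖ ^ 2 + ‖H' x‖ ^ 2) * Real.exp (-(x / T) ^ 2) ≤ _
        rw [hHsq]
        have h1 := mul_le_mul_of_nonneg_right (hH'sq x) (Real.exp_pos (-(x / T) ^ 2)).le
        nlinarith
    have h12 : Integrable (fun x : ℝ => 2 * (‖E x‖ ^ 2 * ‖F x‖ ^ 2 * Real.exp (-(x / T) ^ 2)) +
        2 * (‖E₁ x‖ ^ 2 * ‖F x‖ ^ 2 * Real.exp (-(x / T) ^ 2))) :=
      (hi1.const_mul 2).add (hi2.const_mul 2)
    rw [integral_add h12 (hi3.const_mul 2),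
      integral_add (hi1.const_mul 2) (hi2.const_mul 2), integral_const_mul, integral_const_mul,
      integral_const_mul] at hmono
    have hp1 : 0 ≤ ∫ x : ℝ, ‖E x‖ ^ 2 * ‖F x‖ ^ 2 * Real.exp (-(x / T) ^ 2) :=
      integral_nonneg fun x => by positivity
    have hp2 : 0 ≤ ∫ x : ℝ, ‖E₁ x‖ ^ 2 * ‖F x‖ ^ 2 * Real.exp (-(x / T) ^ 2) :=
      integral_nonneg fun x => by positivity
    have hp3 : 0 ≤ ∫ x : ℝ, ‖E x‖ ^ 2 * ‖F₁ x‖ ^ 2 * Real.exp (-(x / T) ^ 2) :=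
      integral_nonneg fun x => by positivity
    have h10 := mul_le_mul_of_nonneg_left hmono (by norm_num : (0 : ℝ) ≤ 10 ^ 4)
    refine h10.trans ?_
    nlinarith
  -- sum over k
  have hswap : ∑ τ ∈ W, ‖PP N b τ‖ ^ 2 * ∑ k ∈ Finset.Icc 1 ⌊64 * X₀⌋₊, Phi ((k : ℝ) / X₀) *
      ‖FG Phi W f X M τ k‖ ^ 2 = ∑ k ∈ Finset.Icc 1 ⌊64 * X₀⌋₊, Phi ((k : ℝ) / X₀) *
        ∑ τ ∈ W, ‖PP N b τ‖ ^ 2 * ‖FG Phi W f X M τ k‖ ^ 2 := by
    simp_rw [Finset.mul_sum]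
    rw [Finset.sum_comm]
    refine Finset.sum_congr rfl fun k _ => Finset.sum_congr rfl fun τ _ => ?_
    ring
  rw [hswap]
  unfold Jg
  rw [← Finset.sum_add_distrib, ← Finset.sum_add_distrib, Finset.mul_sum]
  refine Finset.sum_le_sum fun k _ => ?_
  have h1 := mul_le_mul_of_nonneg_left (key k) (hPhi ((k : ℝ) / X₀)).1
  refine h1.trans (le_of_eq ?_)
  ring

end Pool.Agent.NF
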