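import Pool.Agent.helper4.NF.SpecB

set_option autoImplicit false

open Complex MeasureTheory

namespace Pool.Agent.NF

open Pool.Agent.helper84.DM Pool.Agent.helper78.ED Pool.Agent.DH Pool.Agent.ZD

theorem YM : YM_stmt := by
  intro S K U T NP q Q hK hU hT hNP hq hqQ h1 h2
  set r : ℝ := (NP ^ 3 * U ^ 2 * T) ^ (1 / 2 : ℝ) with hr
  have hr0 : 0 ≤ r := Real.rpow_nonneg (by positivity) _
  have hr2 : r ^ 2 = NP ^ 3 * U ^ 2 * T := by
    rw [hr, ← Real.rpow_natCast, ← Real.rpow_mul (by positivity)]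
    norm_num
  have hq0 : 0 < q := by linarith
  set a : ℝ := U ^ 2 * T with ha
  set b : ℝ := U ^ 2 * NP with hb
  set c : ℝ := NP * T with hc
  set e : ℝ := NP ^ 3 with he
  have ha0 : 0 ≤ a := by positivity
  have hb0 : 0 ≤ b := by positivity
  have hc0 : 0 ≤ c := by positivity
  have he0 : 0 ≤ e := by positivity
  have hae : r ^ 2 = a * e := by rw [hr2, ha, he]; ring
  have h1' : S ≤ K * (a + b * q ^ 2) := by
    refine h1.trans (le_of_eq ?_)
    rw [ha, hb]; ring
  have h2' : S ≤ K * (c + e * q ^ 2) := by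
    refine h2.trans (le_of_eq ?_)
    rw [hc, he]; ring
  rcases le_total a (e * q ^ 2) with h | h
  · have h3 : a ≤ r * q := by
      have h4 : a ^ 2 ≤ (r * q) ^ 2 := by
        calc a ^ 2 = a * a := sq a
          _ ≤ a * (e * q ^ 2) := mul_le_mul_of_nonneg_left h ha0
          _ = (r * q) ^ 2 := by rw [mul_pow, hae]; ring
      exact (abs_le_of_sq_le_sq' h4 (by positivity)).2
    have h5 : b * q ^ 2 ≤ b * Q * q := by
      calc b * q ^ 2 = (b * q) * q := by ring
        _ ≤ (b * Q) * q := mul_le_mul_of_nonneg_right (mul_le_mul_of_nonneg_left hqQ hb0) hq0.le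
    have h6 : K * (a + b * q ^ 2) ≤ K * ((c + r + b * Q) * q) := by
      apply mul_le_mul_of_nonneg_left _ hK
      have : 0 ≤ c * q := by positivity
      nlinarith
    calc S ≤ K * (a + b * q ^ 2) := h1'
      _ ≤ K * ((c + r + b * Q) * q) := h6
      _ = K * (c + r + b * Q) * q := by ring
  · have h3 : e * q ≤ r := by
      have h4 : (e * q) ^ 2 ≤ r ^ 2 := by
        rw [hae]
        calc (e * q) ^ 2 = e * (e * q ^ 2) := by ring
          _ ≤ e * a := mul_le_mul_of_nonneg_left h he0
          _ = a * e := mul_comm _ _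
      exact (abs_le_of_sq_le_sq' h4 hr0).2
    have h5 : e * q ^ 2 ≤ r * q := by
      calc e * q ^ 2 = (e * q) * q := by ring
        _ ≤ r * q := mul_le_mul_of_nonneg_right h3 hq0.le
    have h6 : K * (c + e * q ^ 2) ≤ K * ((c + r + b * Q) * q) := by
      apply mul_le_mul_of_nonneg_left _ hK
      have h7 : 0 ≤ b * Q * q := mul_nonneg (mul_nonneg hb0 (by linarith)) hq0.le
      have h8 : c ≤ c * q := by nlinarith
      nlinarith
    calc S ≤ K * (c + e * q ^ 2) := h2'
      _ ≤ K * ((c + r + b * Q) * q) := h6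
      _ = K * (c + r + b * Q) * q := by ring

end Pool.Agent.NF
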